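import Pool.Agent.T9h6.BD.Lst
import Pool.Agent.T9h6.BC.Dv

/-!
# Decidability of the relations
-/

set_option autoImplicit false

namespace Pool.Agent.T9h6.BD

open Pool.Agent.TH672 (Fm varStr num digits LogK)
open Pool.Agent.TH636.BC
open Pool.Agent.TH955.J1547 (p_var isF isF_primrec isF_iff gnLog gn_inj)
open Pool.Agent.TH554.J1548 (lsts mem_lsts lsts_primrec Chk chk_primrec isPf_iff sL sL_map sL_primrec
  exists_map length_le_strs length_le_num str_le_strs num_primrec prComp)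
open Pool.Agent.TH197.J1545 (code_inj num_inj str_pre digits_num str_ne_nil strs_cons strs_append
  digits_odd digits_even digits_zero num_snoc)
open Pool.Agent.T9h6.BC (st st_primrec st_gn Bd Bd_primrec Bd_mono gn_le vl vl_primrec vl_gn
  rep rep_eq rep_primrec rep_length tlx str_instx digits_primrec parse isProof_sub Num exists_num
  sz vlt_sz Vlt.mono)

theorem num_digits (n : ℕ) : num (digits n) = n := by
  induction n using Nat.strong_induction_on with
  | _ n ih =>
    rcases Nat.eq_zero_or_pos n with rfl | hn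
    · rw [digits_zero]; rfl
    · rcases Nat.even_or_odd' n with ⟨m, rfl | rfl⟩
      · obtain ⟨m, rfl⟩ : ∃ t, m = t + 1 := ⟨m - 1, by omega⟩
        rw [show 2 * (m + 1) = 2 * m + 2 by ring, digits_even, num_snoc, ih m (by omega)]
        simp
      · rw [digits_odd, num_snoc, ih m (by omega)]
        simp

theorem le_num_append (u w : List Bool) : num w ≤ num (u ++ w) := by
  induction w using List.reverseRecOn with
  | nil => exact Nat.zero_le _
  | append_singleton w b ih =>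
    rw [← List.append_assoc, num_snoc, num_snoc]
    omega

theorem code_single (φ : Fml) : code [φ] = num (str φ) := by simp [code, strs]

variable {S : Fml → Prop}

/-- the codes of the elements of `S` -/
def SC (S : Fml → Prop) (n : ℕ) : Prop := ∃ ψ, S ψ ∧ n = code [ψ]

theorem sC_iff (φ : Fml) : SC S (num (str φ)) ↔ S φ := by
  constructor
  · rintro ⟨ψ, h1, h2⟩
    rw [← code_single] at h2
    have h3 : φ = ψ := by simpa using code_inj h2
    exact h3 ▸ h1
  · exact fun h => ⟨φ, h, (code_single φ).symm⟩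

open Classical in
/-- the elements of `S` with Gödel numbers at most `n` -/
noncomputable def sl (S : Fml → Prop) (n : ℕ) : List Fml :=
  (fl n).flatMap fun φ => if S φ then [φ] else []

theorem mem_sl {n : ℕ} {φ : Fml} (h : gn φ ≤ n) (hS : S φ) : φ ∈ sl S n := by
  unfold sl
  rw [List.mem_flatMap]
  exact ⟨φ, mem_fl h, by simp [hS]⟩

theorem of_mem_sl {n : ℕ} {φ : Fml} (h : φ ∈ sl S n) : S φ := by
  unfold sl at h
  rw [List.mem_flatMap] at h
  obtain ⟨ψ, -, h2⟩ := h
  split_ifs at h2 with h3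
  · simp only [List.mem_singleton] at h2
    exact h2 ▸ h3
  · simp at h2

open Classical in
/-- the string if it belongs to an element of `S` -/
noncomputable def gS (S : Fml → Prop) (s : List Bool) : List Bool := if SC S (num s) then s else []

theorem strs_sl (n : ℕ) : strs (sl S n) =
    (List.range (n + 1)).flatMap fun a => cond (isF a) (gS S (st a)) [] := by
  unfold sl strs
  rw [List.flatMap_assoc]
  refine flat_fl _ (gS S) (fun φ => ?_) n
  unfold gS
  by_cases h : S φ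
  · rw [if_pos h, if_pos ((sC_iff φ).2 h)]
    simp
  · rw [if_neg h, if_neg (fun h' => h ((sC_iff φ).1 h'))]
    rfl

/-- the list of axioms -/
noncomputable def axl (S : Fml → Prop) (W : Fml) (c K n : ℕ) : List Fml :=
  sl S n ++ (List.range K).flatMap fun j =>
    (fl n).map fun φ => rfS W (str φ ++ (str W ++ digits c)) j φ

/-- the string of the list -/
noncomputable def al (S : Fml → Prop) (sW : List Bool) (c K n : ℕ) : List Bool :=
  ((List.range (n + 1)).flatMap fun a => cond (isF a) (gS S (st a)) []) ++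
  (List.range K).flatMap fun j => (List.range (n + 1)).flatMap fun a =>
    cond (isF a) (rs (st a) sW (st a ++ (sW ++ digits c)) j) []

theorem strs_axl (W : Fml) (c K n : ℕ) : strs (axl S W c K n) = al S (str W) c K n := by
  unfold axl al
  rw [strs_append, strs_sl]
  congr 1
  unfold strs
  rw [List.flatMap_assoc]
  congr 1
  funext j
  rw [List.flatMap_map]
  exact flat_fl _ (fun s => rs s (str W) (s ++ (str W ++ digits c)) j)
    (fun φ => str_rfS W _ j φ) n

/-- the code of the list of axioms, followed by the list with the code `c` -/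
noncomputable def hh (S : Fml → Prop) (sW : List Bool) (c K n : ℕ) : ℕ :=
  num (al S sW c K n ++ digits c)

theorem hh_code (W : Fml) (Γ : List Fml) (K n : ℕ) :
    hh S (str W) (code Γ) K n = code (axl S W (code Γ) K n ++ Γ) := by
  unfold hh
  rw [← strs_axl]
  unfold code
  rw [digits_num, strs_append]

theorem exists_of_hh {W : Fml} {c K n : ℕ} {Γ' : List Fml}
    (h : hh S (str W) c K n = code Γ') : ∃ Γ, c = code Γ ∧ Γ' = axl S W c K n ++ Γ := by
  unfold hh code at h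
  have h1 := num_inj h
  rw [← strs_axl] at h1
  obtain ⟨Γ, h2, h3⟩ := parse h1
  refine ⟨Γ, ?_, h2⟩
  unfold code
  rw [← h3, num_digits]

theorem axK_of_mem {W : Fml} {Γ : List Fml} {K n : ℕ} {ψ : Fml}
    (h : ψ ∈ axl S W (code Γ) K n ++ Γ) : AxK S W Γ K ψ := by
  rcases List.mem_append.1 h with h | h
  · unfold axl at h
    rcases List.mem_append.1 h with h | h
    · exact Or.inr (Or.inl (of_mem_sl h))
    · rw [List.mem_flatMap] at h
      obtain ⟨j, hj, h⟩ := h
      obtain ⟨φ, -, rfl⟩ := List.mem_map.1 h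
      refine Or.inr (Or.inr ⟨j, List.mem_range.1 hj, φ, ?_⟩)
      rw [refl_eq, strs_cons, strs_cons]
      unfold code
      rw [digits_num]
  · exact Or.inl h

theorem mem_of_axK {W : Fml} {Γ : List Fml} {K y : ℕ} {ψ : Fml}
    (hψ : (str ψ).length ≤ y) (h : AxK S W Γ K ψ) : ψ ∈ axl S W (code Γ) K (Bd y) ++ Γ := by
  rcases h with h | h | ⟨j, hj, φ, rfl⟩
  · exact List.mem_append_right _ h
  · refine List.mem_append_left _ (List.mem_append_left _ (mem_sl ?_ h))
    exact (gn_le ψ).trans (Bd_mono hψ)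
  · refine List.mem_append_left _ (List.mem_append_right _ ?_)
    rw [List.mem_flatMap]
    refine ⟨j, List.mem_range.2 hj, ?_⟩
    rw [List.mem_map]
    refine ⟨φ, mem_fl ((gn_le φ).trans (Bd_mono ?_)), ?_⟩
    · rw [refl_eq, str_rfS] at hψ
      have := le_length_rs (str φ) (str W) (strs (φ :: W :: Γ)) j
      omega
    · rw [refl_eq, strs_cons, strs_cons]
      unfold code
      rw [digits_num]

theorem prK_iff {W : Fml} {Γ : List Fml} {k x : ℕ} {φ : Fml} :
    PrK S W Γ k x φ ↔ PrV (hh S (str W) (code Γ) k (Bd x), k, x, num (str φ)) := by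
  constructor
  · rintro ⟨Δ, π, h1, h2, h3, h4⟩
    refine ⟨_, φ, π, hh_code W Γ k (Bd x), (code_single φ).symm, ?_, h3, h4⟩
    exact isProof_sub (fun ψ hψ hΔ => mem_of_axK ((str_le_strs hψ).trans h4) (h1 ψ hΔ)) h2
  · rintro ⟨Γ', φ', π, h1, h2, h3, h4, h5⟩
    simp only at h1 h2 h4 h5
    rw [hh_code] at h1
    have h6 := code_inj h1
    rw [← code_single] at h2
    have h7 : φ = φ' := by simpa using code_inj h2
    subst h7
    subst h6
    exact ⟨_, π, fun ψ hψ => axK_of_mem hψ, h3, h4, h5⟩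

theorem pRel_iff (c k x : ℕ) : PRel S c k x ↔
    ∃ a ∈ List.range (Bd c + 1), ∃ b ∈ List.range (Bd c + 1), ∃ e ∈ List.range (c + 1),
      isF a = true ∧ isF b = true ∧ c = num (st a ++ (st b ++ digits e)) ∧
        PrV (hh S (st b) e k (Bd x), k, x, num (st a)) := by
  simp only [List.mem_range]
  constructor
  · rintro ⟨φ, W, Γ, h1, h2⟩
    have h3 : strs (φ :: W :: Γ) = str φ ++ (str W ++ strs Γ) := rfl
    have hl : (strs (φ :: W :: Γ)).length ≤ c := by
      rw [h1]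
      exact length_le_num _
    have hl1 : (str φ).length ≤ c := (str_le_strs (List.mem_cons_self ..)).trans hl
    have hl2 : (str W).length ≤ c :=
      (str_le_strs (List.mem_cons_of_mem _ (List.mem_cons_self ..))).trans hl
    refine ⟨gn φ, ?_, gn W, ?_, code Γ, ?_, (isF_iff _).2 ⟨φ, rfl⟩, (isF_iff _).2 ⟨W, rfl⟩, ?_, ?_⟩
    · have := (gn_le φ).trans (Bd_mono hl1)
      omega
    · have := (gn_le W).trans (Bd_mono hl2)
      omega
    · have : code Γ ≤ c := by
        rw [h1]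
        unfold code
        rw [h3, ← List.append_assoc]
        exact le_num_append _ _
      omega
    · rw [st_gn, st_gn, h1]
      unfold code
      rw [digits_num, h3]
    · rw [st_gn, st_gn]
      exact prK_iff.1 h2
  · rintro ⟨a, -, b, -, e, -, ha, hb, hc, h⟩
    obtain ⟨φ, rfl⟩ := (isF_iff a).1 ha
    obtain ⟨W, rfl⟩ := (isF_iff b).1 hb
    rw [st_gn, st_gn] at hc h
    obtain ⟨Γ', φ', π, h1, h2⟩ := id h
    simp only at h1
    obtain ⟨Γ, rfl, -⟩ := exists_of_hh h1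
    refine ⟨φ, W, Γ, ?_, prK_iff.2 h⟩
    rw [hc]
    unfold code
    rw [digits_num]
    rfl

theorem tRel_iff (V : Fml) (c y d : ℕ) : TRel S V c y d ↔
    PrV (hh S (str V) c y (Bd y), y, y, d) := by
  constructor
  · rintro ⟨Γ, φ, rfl, rfl, Δ, h1, π, h2, h3⟩
    refine ⟨_, φ, π, hh_code V Γ y (Bd y), rfl, ?_, ?_, h3⟩
    · refine isProof_sub (fun ψ hψ hΔ => ?_) h2
      have hl := (str_le_strs hψ).trans h3
      refine mem_of_axK hl ?_
      obtain ⟨k, hk⟩ := h1 ψ hΔ
      rcases hk with h | h | ⟨j, -, φ', rfl⟩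
      · exact Or.inl h
      · exact Or.inr (Or.inl h)
      · refine Or.inr (Or.inr ⟨j, ?_, φ', rfl⟩)
        rw [refl_eq, str_rfS] at hl
        have := le_length_rs (str φ') (str V) (strs (φ' :: V :: Γ)) j
        omega
    · intro ψ hψ
      have h4 : sz ψ ≤ y := (str_le_strs hψ).trans h3
      exact Vlt.mono h4 (vlt_sz ψ)
  · rintro ⟨Γ', φ, π, h1, h2, h3, h4, h5⟩
    simp only at h1 h2 h4 h5
    obtain ⟨Γ, rfl, rfl⟩ := exists_of_hh h1
    exact ⟨Γ, φ, rfl, h2, _, fun ψ hψ => ⟨y, axK_of_mem hψ⟩, π, h3, h5⟩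

/-! ### primitive recursion -/

theorem gS_primrec (hS : PrimrecPred (SC S)) : Primrec (gS S) := by
  have h1 : PrimrecPred fun s : List Bool => SC S (num s) := hS.comp num_primrec
  obtain ⟨hd, hp⟩ := h1
  have h2 : Primrec fun s : List Bool => cond (decide (SC S (num s))) s [] :=
    Primrec.cond hp Primrec.id (Primrec.const [])
  refine h2.of_eq fun s => ?_
  unfold gS
  by_cases h : SC S (num s)
  · rw [if_pos h, decide_eq_true h]
    rfl
  · rw [if_neg h, decide_eq_false h]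
    rfl

theorem al_primrec (hS : PrimrecPred (SC S)) :
    Primrec fun p : (List Bool × ℕ) × (ℕ × ℕ) => al S p.1.1 p.1.2 p.2.1 p.2.2 := by
  unfold al
  have e1 : Primrec fun p : (List Bool × ℕ) × (ℕ × ℕ) => List.range (p.2.2 + 1) :=
    Primrec.list_range.comp (Primrec.succ.comp (Primrec.snd.comp Primrec.snd))
  have e2 : Primrec fun p : (List Bool × ℕ) × (ℕ × ℕ) => List.range p.2.1 :=
    Primrec.list_range.comp (Primrec.fst.comp Primrec.snd)
  refine Primrec.list_append.comp ?_ ?_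
  · refine Primrec.list_flatMap e1 ?_
    exact (Primrec.cond (isF_primrec.comp Primrec.snd)
      ((gS_primrec hS).comp (st_primrec.comp Primrec.snd)) (Primrec.const [])).to₂
  · refine Primrec.list_flatMap e2 ?_
    have f1 : Primrec fun r : (((List Bool × ℕ) × (ℕ × ℕ)) × ℕ) × ℕ => st r.2 :=
      st_primrec.comp Primrec.snd
    have f2 : Primrec fun r : (((List Bool × ℕ) × (ℕ × ℕ)) × ℕ) × ℕ => r.1.1.1.1 :=
      Primrec.fst.comp (Primrec.fst.comp (Primrec.fst.comp Primrec.fst))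
    have f3 : Primrec fun r : (((List Bool × ℕ) × (ℕ × ℕ)) × ℕ) × ℕ => digits r.1.1.1.2 :=
      digits_primrec.comp (Primrec.snd.comp (Primrec.fst.comp (Primrec.fst.comp Primrec.fst)))
    have f4 : Primrec fun r : (((List Bool × ℕ) × (ℕ × ℕ)) × ℕ) × ℕ => r.1.2 :=
      Primrec.snd.comp Primrec.fst
    have f5 : Primrec fun r : (((List Bool × ℕ) × (ℕ × ℕ)) × ℕ) × ℕ =>
        rs (st r.2) r.1.1.1.1 (st r.2 ++ (r.1.1.1.1 ++ digits r.1.1.1.2)) r.1.2 :=
      rs_comp f1 f2 (app_comp f1 (app_comp f2 f3)) f4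
    have f6 : Primrec fun r : (((List Bool × ℕ) × (ℕ × ℕ)) × ℕ) × ℕ => isF r.2 :=
      isF_primrec.comp Primrec.snd
    have f7 : Primrec fun r : (((List Bool × ℕ) × (ℕ × ℕ)) × ℕ) × ℕ =>
        cond (isF r.2) (rs (st r.2) r.1.1.1.1 (st r.2 ++ (r.1.1.1.1 ++ digits r.1.1.1.2)) r.1.2)
          [] := Primrec.cond f6 f5 (Primrec.const [])
    have f8 : Primrec fun q : ((List Bool × ℕ) × (ℕ × ℕ)) × ℕ => List.range (q.1.2.2 + 1) :=
      e1.comp Primrec.fst
    exact (Primrec.list_flatMap f8 f7.to₂).to₂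

theorem hh_primrec (hS : PrimrecPred (SC S)) :
    Primrec fun p : (List Bool × ℕ) × (ℕ × ℕ) => hh S p.1.1 p.1.2 p.2.1 p.2.2 := by
  unfold hh
  exact num_primrec.comp (Primrec.list_append.comp (al_primrec hS)
    (digits_primrec.comp (Primrec.snd.comp Primrec.fst)))

theorem tRel_primrec (hS : PrimrecPred (SC S)) (V : Fml) :
    PrimrecPred fun x : ℕ × ℕ × ℕ => TRel S V x.1 x.2.1 x.2.2 := by
  have e1 : Primrec fun x : ℕ × ℕ × ℕ => x.2.1 := Primrec.fst.comp Primrec.snd
  have h1 : Primrec fun x : ℕ × ℕ × ℕ =>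
      ((hh S (str V) x.1 x.2.1 (Bd x.2.1), x.2.1, x.2.1, x.2.2) : ℕ × ℕ × ℕ × ℕ) := by
    refine Primrec.pair ?_ (Primrec.pair e1 (Primrec.pair e1 (Primrec.snd.comp Primrec.snd)))
    exact (hh_primrec hS).comp (Primrec.pair (Primrec.pair (Primrec.const _) Primrec.fst)
      (Primrec.pair e1 (Bd_primrec.comp e1)))
  exact (prV_primrec.comp h1).of_eq fun x => (tRel_iff V _ _ _).symm

theorem pRel_primrec (hS : PrimrecPred (SC S)) :
    PrimrecPred fun x : ℕ × ℕ × ℕ => PRel S x.1 x.2.1 x.2.2 := by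
  -- `q = (a, b, e, x)`
  have g1 : Primrec fun q : ℕ × (ℕ × (ℕ × (ℕ × ℕ × ℕ))) => st q.1 := st_primrec.comp Primrec.fst
  have g2 : Primrec fun q : ℕ × (ℕ × (ℕ × (ℕ × ℕ × ℕ))) => st q.2.1 :=
    st_primrec.comp (Primrec.fst.comp Primrec.snd)
  have g3 : Primrec fun q : ℕ × (ℕ × (ℕ × (ℕ × ℕ × ℕ))) => q.2.2.1 :=
    Primrec.fst.comp (Primrec.snd.comp Primrec.snd)
  have gx : Primrec fun q : ℕ × (ℕ × (ℕ × (ℕ × ℕ × ℕ))) => q.2.2.2 :=
    Primrec.snd.comp (Primrec.snd.comp Primrec.snd)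
  have gk : Primrec fun q : ℕ × (ℕ × (ℕ × (ℕ × ℕ × ℕ))) => q.2.2.2.2.1 :=
    Primrec.fst.comp (Primrec.snd.comp gx)
  have gy : Primrec fun q : ℕ × (ℕ × (ℕ × (ℕ × ℕ × ℕ))) => q.2.2.2.2.2 :=
    Primrec.snd.comp (Primrec.snd.comp gx)
  have k1 : PrimrecPred fun q : ℕ × (ℕ × (ℕ × (ℕ × ℕ × ℕ))) => isF q.1 = true :=
    Primrec.eq.comp (isF_primrec.comp Primrec.fst) (Primrec.const true)
  have k2 : PrimrecPred fun q : ℕ × (ℕ × (ℕ × (ℕ × ℕ × ℕ))) => isF q.2.1 = true :=
    Primrec.eq.comp (isF_primrec.comp (Primrec.fst.comp Primrec.snd)) (Primrec.const true)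
  have k3 : PrimrecPred fun q : ℕ × (ℕ × (ℕ × (ℕ × ℕ × ℕ))) =>
      q.2.2.2.1 = num (st q.1 ++ (st q.2.1 ++ digits q.2.2.1)) :=
    Primrec.eq.comp (Primrec.fst.comp gx) (num_primrec.comp (Primrec.list_append.comp g1
      (Primrec.list_append.comp g2 (digits_primrec.comp g3))))
  have k4 : PrimrecPred fun q : ℕ × (ℕ × (ℕ × (ℕ × ℕ × ℕ))) =>
      PrV (hh S (st q.2.1) q.2.2.1 q.2.2.2.2.1 (Bd q.2.2.2.2.2), q.2.2.2.2.1, q.2.2.2.2.2,
        num (st q.1)) := by
    refine prV_primrec.comp (Primrec.pair ?_ (Primrec.pair gk (Primrec.pair gy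
      (num_primrec.comp g1))))
    exact (hh_primrec hS).comp (Primrec.pair (Primrec.pair g2 g3)
      (Primrec.pair gk (Bd_primrec.comp gy)))
  have k5 : PrimrecPred fun q : ℕ × (ℕ × (ℕ × (ℕ × ℕ × ℕ))) => isF q.1 = true ∧ isF q.2.1 = true ∧
      q.2.2.2.1 = num (st q.1 ++ (st q.2.1 ++ digits q.2.2.1)) ∧
      PrV (hh S (st q.2.1) q.2.2.1 q.2.2.2.2.1 (Bd q.2.2.2.2.2), q.2.2.2.2.1, q.2.2.2.2.2,
        num (st q.1)) := k1.and (k2.and (k3.and k4))
  -- the quantifier over `e`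
  have k6 : PrimrecRel fun (e : ℕ) (r : ℕ × ℕ × (ℕ × ℕ × ℕ)) => isF r.1 = true ∧
      isF r.2.1 = true ∧ r.2.2.1 = num (st r.1 ++ (st r.2.1 ++ digits e)) ∧
      PrV (hh S (st r.2.1) e r.2.2.2.1 (Bd r.2.2.2.2), r.2.2.2.1, r.2.2.2.2, num (st r.1)) :=
    k5.comp (f := fun p : ℕ × (ℕ × ℕ × (ℕ × ℕ × ℕ)) => (p.2.1, p.2.2.1, p.1, p.2.2.2))
      (Primrec.pair (Primrec.fst.comp Primrec.snd) (Primrec.pair (Primrec.fst.comp
        (Primrec.snd.comp Primrec.snd)) (Primrec.pair Primrec.fst (Primrec.snd.comp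
          (Primrec.snd.comp Primrec.snd)))))
  have k7 : PrimrecPred fun r : ℕ × ℕ × (ℕ × ℕ × ℕ) => ∃ e ∈ List.range (r.2.2.1 + 1),
      isF r.1 = true ∧ isF r.2.1 = true ∧ r.2.2.1 = num (st r.1 ++ (st r.2.1 ++ digits e)) ∧
      PrV (hh S (st r.2.1) e r.2.2.2.1 (Bd r.2.2.2.2), r.2.2.2.1, r.2.2.2.2, num (st r.1)) :=
    (PrimrecRel.exists_mem_list k6).comp (Primrec.list_range.comp (Primrec.succ.comp
      (Primrec.fst.comp (Primrec.snd.comp Primrec.snd)))) Primrec.id
  -- the quantifier over `b`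
  have k8 : PrimrecRel fun (b : ℕ) (r : ℕ × (ℕ × ℕ × ℕ)) => ∃ e ∈ List.range (r.2.1 + 1),
      isF r.1 = true ∧ isF b = true ∧ r.2.1 = num (st r.1 ++ (st b ++ digits e)) ∧
      PrV (hh S (st b) e r.2.2.1 (Bd r.2.2.2), r.2.2.1, r.2.2.2, num (st r.1)) :=
    k7.comp (f := fun p : ℕ × (ℕ × (ℕ × ℕ × ℕ)) => (p.2.1, p.1, p.2.2))
      (Primrec.pair (Primrec.fst.comp Primrec.snd) (Primrec.pair Primrec.fst
        (Primrec.snd.comp Primrec.snd)))
  have k9 : PrimrecPred fun r : ℕ × (ℕ × ℕ × ℕ) => ∃ b ∈ List.range (Bd r.2.1 + 1),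
      ∃ e ∈ List.range (r.2.1 + 1),
      isF r.1 = true ∧ isF b = true ∧ r.2.1 = num (st r.1 ++ (st b ++ digits e)) ∧
      PrV (hh S (st b) e r.2.2.1 (Bd r.2.2.2), r.2.2.1, r.2.2.2, num (st r.1)) :=
    (PrimrecRel.exists_mem_list k8).comp (Primrec.list_range.comp (Primrec.succ.comp
      (Bd_primrec.comp (Primrec.fst.comp Primrec.snd)))) Primrec.id
  have k10 : PrimrecPred fun x : ℕ × ℕ × ℕ => ∃ a ∈ List.range (Bd x.1 + 1),
      ∃ b ∈ List.range (Bd x.1 + 1), ∃ e ∈ List.range (x.1 + 1),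
      isF a = true ∧ isF b = true ∧ x.1 = num (st a ++ (st b ++ digits e)) ∧
      PrV (hh S (st b) e x.2.1 (Bd x.2.2), x.2.1, x.2.2, num (st a)) :=
    (PrimrecRel.exists_mem_list (R := fun (a : ℕ) (x : ℕ × ℕ × ℕ) =>
      ∃ b ∈ List.range (Bd x.1 + 1), ∃ e ∈ List.range (x.1 + 1),
      isF a = true ∧ isF b = true ∧ x.1 = num (st a ++ (st b ++ digits e)) ∧
      PrV (hh S (st b) e x.2.1 (Bd x.2.2), x.2.1, x.2.2, num (st a))) k9).comp
      (Primrec.list_range.comp (Primrec.succ.comp (Bd_primrec.comp Primrec.fst))) Primrec.id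
  exact k10.of_eq fun x => (pRel_iff _ _ _).symm

/-- There is a numeration of the first relation. -/
theorem exists_V (hS : PrimrecPred (SC S)) : ∃ V, Num (PRel S) V := by
  obtain ⟨hd, hc⟩ := pRel_primrec hS
  exact exists_num ⟨hd, hc.to_comp⟩

/-- There is a numeration of the second relation. -/
theorem exists_P (hS : PrimrecPred (SC S)) (V : Fml) : ∃ P, Num (TRel S V) P := by
  obtain ⟨hd, hc⟩ := tRel_primrec hS V
  exact exists_num ⟨hd, hc.to_comp⟩

end Pool.Agent.T9h6.BD
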