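import Pool.Agent.T9h6.BD.Sem

/-!
# The reflection axioms in the pseudo-models; consistency
-/

set_option autoImplicit false

namespace Pool.Agent.T9h6.BD

open Pool.Agent.TH672 (Fm Str upd varStr num digits LogK ReplK Sw Pv upd_same upd_ne upd_upd
  upd_comm)
open Pool.Agent.TH636.BC
open Pool.Agent.TH838.J1549 (sat_cong sat_inst sat_inst3 free_inst Q exists_Q)
open Pool.Agent.TH554.J1548 (str_le_strs)
open Pool.Agent.TH197.J1545 (DM D Dsucc Dadd Dmul sat_proves sat_robinson code_inj sat_upd)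
open Pool.Agent.T9h21.BC (NoCol noCol_of_arith tru_iff_sat tr1_of_sat exists_rel)
open Pool.Agent.T9h6.BC (Num exists_QD arith_inst ok_zero rep_length isProof_sub Vlt.mono vlt_sz sz)

/-- the hypothesis of the reflection axiom -/
def Hy (W : Fml) (σ : List Bool) (k : ℕ) : Fml :=
  .ex 4 (.and (.neg (.succ 4 4)) (instD 2 σ (inst 3 k W)))

theorem arith_Hy {W : Fml} (h : Arith W) (σ : List Bool) (k : ℕ) : Arith (Hy W σ k) :=
  ⟨⟨⟨⟨⟨trivial, trivial⟩, ⟨arith_instD (arith_inst h), trivial⟩⟩, trivial⟩, trivial⟩, trivial⟩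

theorem sat_Hy {S : Fml → Prop} {V : Fml} (hV : Num (PRel S) V) {σ : List Bool} {k : ℕ}
    {v : ℕ → D.M} (h : Fm.Sat D (Hy V σ k) v) : ∃ x, PRel S (num σ) k x := by
  obtain ⟨q, hq⟩ := exists_QD
  have hfr := hV.free
  have f0 : ¬ V.Free 0 := fun h => by have := hfr 0 h; omega
  have f1 : ¬ V.Free 1 := fun h => by have := hfr 1 h; omega
  have hfn : ∀ x, V.neg.Free x → x = 2 ∨ x = 3 ∨ x = 4 := fun x hx => by
    simp only [Fm.neg, Fm.Free, or_false] at hx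
    exact hfr x hx
  unfold Hy at h
  rw [Fm.sat_ex] at h
  obtain ⟨a, ha⟩ := h
  rw [Fm.sat_and, Fm.sat_neg, Fm.sat_succ, upd_same] at ha
  obtain ⟨ha1, ha2⟩ := ha
  rcases a with n | p
  swap
  · exact absurd rfl ha1
  rw [sat_instD (by omega) (fun h => (free_inst h).1 rfl) (fun h => f1 (free_inst h).2.2),
    sat_inst q (by omega) f0 f1] at ha2
  refine ⟨n, ?_⟩
  by_contra hcon
  obtain ⟨m, hm⟩ := hV.neg (num σ) k n hcon
  have h1 : ∀ ψ, ψ = inst 2 (num σ) (inst 3 k (inst 4 n V.neg)) → Fm.Sat D ψ v := by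
    rintro ψ rfl
    exact sat_proves sat_robinson hm v
  have h2 := h1 _ rfl
  rw [sat_inst3 q hfn, Fm.sat_neg] at h2
  apply h2
  rw [hq k] at ha2
  rw [hq (num σ), hq k, hq n]
  refine (sat_cong fun y hy => ?_).1 ha2
  have := hfr y hy
  unfold upd
  rcases this with rfl | rfl | rfl <;> simp

theorem tru_refl {S : Fml → Prop} {V : Fml} (hV : Num (PRel S) V) {Γ : List Fml} {k m : ℕ}
    {φ : Fml} (hvl : Vlt m (refl V Γ k φ))
    (h : ∀ x, PRel S (code (φ :: V :: Γ)) k x → Tr1 m φ) : Tr1 m (refl V Γ k φ) := by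
  have h0 : ∀ X : Fml, X = Hy V (strs (φ :: V :: Γ)) k → Vlt m X → Arith X → Tr1 m (X.imp φ) := by
    rintro X rfl hvX haX s hs hX
    obtain ⟨v, hv⟩ := exists_rel hs
    have h1 := (tru_iff_sat (noCol_of_arith haX) hvX hs hv).1 hX
    obtain ⟨x, hx⟩ := sat_Hy hV h1
    exact h x hx s hs
  exact h0 _ rfl hvl.1 (arith_Hy hV.arith _ _)

/-- The axioms of `T_k` are true in the pseudo-model of dimension `m ≥ k`. -/
theorem tr1_axK (hSd : SoundS) {S : Fml → Prop} (hS : ∀ ψ, S ψ → RelTrue ψ) {V : Fml}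
    (hV : Num (PRel S) V) {Γ : List Fml} {m : ℕ} (hax : ∀ φ ∈ Γ, Vlt m φ → Tr1 m φ) :
    ∀ k ≤ m, ∀ ψ, AxK S V Γ (k + 1) ψ → Vlt m ψ → Tr1 m ψ := by
  intro k
  induction k using Nat.strong_induction_on with
  | _ k ih =>
    intro hk ψ hψ hv
    rcases hψ with h | h | ⟨j, hj, φ, rfl⟩
    · exact hax ψ h hv
    · exact tr1_relTrue (hS ψ h) hv
    · refine tru_refl hV hv fun x hx => ?_
      obtain ⟨φ', W, Γ', e, Δ, π, h1, h2, h3, -⟩ := hx
      have e' := code_inj e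
      simp only [List.cons.injEq] at e'
      obtain ⟨rfl, rfl, rfl⟩ := e'
      refine hSd m Δ (φ :: π) h2 (fun ψ hψ => Vlt.mono (by omega) (h3 ψ hψ))
        (fun ψ hψ hvψ => ?_) φ (List.mem_cons_self ..)
      rcases h1 ψ hψ with h4 | h4 | ⟨i, hi, φ', rfl⟩
      · exact hax ψ h4 hvψ
      · exact tr1_relTrue (hS ψ h4) hvψ
      · exact ih i (by omega) (by omega) _ (Or.inr (Or.inr ⟨i, by omega, φ', rfl⟩)) hvψ

end Pool.Agent.T9h6.BD
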