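import Pool.Agent.T9h6.BC.Defs

/-!
# Reflection for proofs with few variables: definitions
-/

set_option autoImplicit false

namespace Pool.Agent.T9h6.BD

open Pool.Agent.TH672 (Fm Str)
open Pool.Agent.TH636.BC
open Pool.Agent.T9h6.BC (Num)

/-! ### True arithmetical sentences -/

/-- The standard structure: the natural numbers with `0`, successor, addition and
multiplication. -/
@[reducible] def natStr : Str ℕ where
  M := ℕ
  ne := ⟨0⟩
  zero x := x = 0
  succ x y := y = x + 1
  add x y z := z = x + y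
  mul x y z := z = x * y
  op _ _ _ _ _ := False

/-- The formula `φ` with its quantifiers restricted to the elements `x` with `x ≠ x + 1`. -/
def rel : Fml → Fml
  | .imp φ ψ => .imp (rel φ) (rel ψ)
  | .all x φ => .all x (.imp (.neg (.succ x x)) (rel φ))
  | φ => φ

/-- `ψ` is an arithmetical sentence which is true in the natural numbers, with its quantifiers
restricted to the elements `x` with `x ≠ x + 1`. -/
def RelTrue (ψ : Fml) : Prop :=
  ∃ φ : Fml, Arith φ ∧ φ.Closed ∧ (∀ v : ℕ → ℕ, Fm.Sat natStr φ v) ∧ ψ = rel φ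

/-! ### Numerals for strings -/

/-- Let `v₀` be `2 v₀ + 1` (if `b` is `0`) or `2 v₀ + 2` (if `b` is `1`); then `ψ`. -/
def dblk (b : Bool) (ψ : Fml) : Fml :=
  .all 1 (.imp (.add 0 0 1) (.all 0 (.imp (.succ 1 0) (if b then blk ψ else ψ))))

/-- The formula `φ (n)`, where the dyadic numeral of the number `n` with the digits `σ` is
substituted for the variable `x`: let `v₀` be zero; for each digit let `v₀` be `2 v₀ + 1` or
`2 v₀ + 2`; let `x` be `v₀`; then `φ`. -/
def instD (x : ℕ) (σ : List Bool) (φ : Fml) : Fml :=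
  .all 0 (.imp (.zero 0) (σ.foldr dblk (.all x (.imp (.eq x 0) φ))))

/-! ### Reflection for proofs with few variables -/

/-- The reflection axiom: if for some number `x` with `x ≠ x + 1` the formula `W` is true of the
code of the list `φ :: W :: Γ`, of `k` and of `x`, then `φ`. -/
def refl (W : Fml) (Γ : List Fml) (k : ℕ) (φ : Fml) : Fml :=
  .imp (.ex 4 (.and (.neg (.succ 4 4)) (instD 2 (strs (φ :: W :: Γ)) (inst 3 k W)))) φ

/-- `ψ` is an axiom of the `k`-th theory `T_k (Γ)`: it belongs to `Γ` or to `S`, or it is one of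
the reflection axioms `refl W Γ j φ` with `j < k`. -/
def AxK (S : Fml → Prop) (W : Fml) (Γ : List Fml) (k : ℕ) (ψ : Fml) : Prop :=
  ψ ∈ Γ ∨ S ψ ∨ ∃ j < k, ∃ φ, ψ = refl W Γ j φ

/-- `T_k (Γ)` has a proof of `φ` of length at most `x` in which only the variables
`0`, ..., `k - 1` occur (free or bound). -/
def PrK (S : Fml → Prop) (W : Fml) (Γ : List Fml) (k x : ℕ) (φ : Fml) : Prop :=
  ∃ Δ π : List Fml, (∀ ψ ∈ Δ, AxK S W Γ k ψ) ∧ IsProof Δ (φ :: π) ∧ (∀ ψ ∈ φ :: π, Vlt k ψ) ∧
    (strs (φ :: π)).length ≤ x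

/-- `c` is the code of the list `φ :: W :: Γ`, and `T_k (Γ)` has a proof of `φ` of length at most
`x` in which only the variables `0`, ..., `k - 1` occur. -/
def PRel (S : Fml → Prop) (c k x : ℕ) : Prop :=
  ∃ (φ W : Fml) (Γ : List Fml), c = code (φ :: W :: Γ) ∧ PrK S W Γ k x φ

/-- `T (Γ) ⊢^y φ`, where `T (Γ)` is the union of the theories `T_k (Γ)`: it has the axioms `Γ`,
`S` and all the reflection axioms `refl V Γ k φ`. -/
def ProvesT (S : Fml → Prop) (V : Fml) (Γ : List Fml) (y : ℕ) (φ : Fml) : Prop :=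
  ∃ Δ : List Fml, (∀ ψ ∈ Δ, ∃ k, AxK S V Γ k ψ) ∧ Proves Δ y φ

/-- `c` is the code of a list `Γ` of formulas, `d` is the code of a formula `φ`, and
`T (Γ) ⊢^y φ`. -/
def TRel (S : Fml → Prop) (V : Fml) (c y d : ℕ) : Prop :=
  ∃ (Γ : List Fml) (φ : Fml), c = code Γ ∧ d = code [φ] ∧ ProvesT S V Γ y φ

end Pool.Agent.T9h6.BD
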