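import Pool.Agent.T9h6.BD.PrV

/-!
# The lists of the axioms
-/

set_option autoImplicit false

namespace Pool.Agent.T9h6.BD

open Pool.Agent.TH672 (Fm varStr num digits LogK)
open Pool.Agent.TH636.BC
open Pool.Agent.TH955.J1547 (p_var isF isF_primrec isF_iff gnLog gn_inj)
open Pool.Agent.TH554.J1548 (lsts mem_lsts lsts_primrec Chk chk_primrec isPf_iff sL sL_map sL_primrec
  exists_map length_le_strs length_le_num str_le_strs num_primrec prComp)
open Pool.Agent.TH197.J1545 (code_inj num_inj str_pre digits_num str_ne_nil strs_cons strs_append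
  digits_odd digits_even digits_zero)
open Pool.Agent.T9h6.BC (st st_primrec st_gn Bd Bd_primrec Bd_mono gn_le vl vl_primrec vl_gn
  rep rep_eq rep_primrec rep_length tlx str_instx digits_primrec parse isProof_sub)

/-! ### strings of the reflection axioms -/

/-- the block of a digit -/
def db (b : Bool) : List Bool :=
  [true, false, false, false] ++ varStr 1 ++ [false, true, true, true] ++ str (.add 0 0 1) ++
  [true, false, false, false] ++ varStr 0 ++ [false, true, true, true] ++ str (.succ 1 0) ++
  (if b then bs else [])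

theorem str_dblk (b : Bool) (ψ : Fml) : str (dblk b ψ) = db b ++ str ψ := by
  cases b <;> simp [dblk, db, bs, blk, str]

theorem str_foldr (σ : List Bool) (ψ : Fml) :
    str (σ.foldr dblk ψ) = σ.flatMap db ++ str ψ := by
  induction σ with
  | nil => simp
  | cons b σ ih => simp [str_dblk, ih]

theorem str_instD (x : ℕ) (σ : List Bool) (φ : Fml) :
    str (instD x σ φ) = hd ++ σ.flatMap db ++ tlx x ++ str φ := by
  have e : str (instD x σ φ) = hd ++ str (σ.foldr dblk (.all x (.imp (.eq x 0) φ))) := by
    simp [instD, hd, str]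
  rw [e, str_foldr]
  simp [tlx, str]

/-- the reflection axiom with an arbitrary string -/
def rfS (W : Fml) (σ : List Bool) (k : ℕ) (φ : Fml) : Fml :=
  .imp (.ex 4 (.and (.neg (.succ 4 4)) (instD 2 σ (inst 3 k W)))) φ

theorem refl_eq (W : Fml) (Γ : List Fml) (k : ℕ) (φ : Fml) :
    refl W Γ k φ = rfS W (strs (φ :: W :: Γ)) k φ := rfl

/-- the beginning of the string -/
def pre : List Bool :=
  [false, true, true, true] ++ [false, true, true, true] ++ [true, false, false, false] ++
  varStr 4 ++ [false, true, true, true] ++ [false, true, true, true] ++ [false, true, true, true] ++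
  str (.neg (.succ 4 4)) ++ [false, true, true, true]

/-- the middle of the string -/
def mid : List Bool :=
  [false, false, false, false] ++ [false, false, false, false] ++ [false, false, false, false] ++
  [false, false, false, false]

/-- the string of the reflection axiom, in terms of the strings of `φ` and `W` -/
def rs (sφ sW σ : List Bool) (k : ℕ) : List Bool :=
  pre ++ (hd ++ σ.flatMap db ++ tlx 2 ++ (hd ++ rep k ++ tlx 3 ++ sW)) ++ mid ++ sφ

theorem str_rfS (W : Fml) (σ : List Bool) (k : ℕ) (φ : Fml) :
    str (rfS W σ k φ) = rs (str φ) (str W) σ k := by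
  have e1 := str_instD 2 σ (inst 3 k W)
  rw [str_instx] at e1
  generalize hX : instD 2 σ (inst 3 k W) = X at e1
  have e2 : rfS W σ k φ = .imp (.ex 4 (.and (.neg (.succ 4 4)) X)) φ := by rw [rfS, hX]
  rw [e2, rs, ← e1]
  simp [Fm.ex, Fm.and, Fm.neg, str, pre, mid]

theorem le_length_rs (sφ sW σ : List Bool) (k : ℕ) :
    k + sφ.length < (rs sφ sW σ k).length := by
  have h1 := rep_length k
  have h2 : 1 ≤ pre.length := by simp [pre]
  unfold rs
  simp only [List.length_append]
  omega

theorem rs_primrec : Primrec fun p : (List Bool × List Bool) × (List Bool × ℕ) =>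
    rs p.1.1 p.1.2 p.2.1 p.2.2 := by
  unfold rs
  have hdb : Primrec db := Primrec.dom_finite _
  have hf : Primrec fun σ : List Bool => σ.flatMap db :=
    Primrec.list_flatMap Primrec.id (hdb.comp Primrec.snd).to₂
  have a1 : Primrec fun p : (List Bool × List Bool) × (List Bool × ℕ) => p.2.1.flatMap db :=
    hf.comp (Primrec.fst.comp Primrec.snd)
  have a2 : Primrec fun p : (List Bool × List Bool) × (List Bool × ℕ) => rep p.2.2 :=
    rep_primrec.comp (Primrec.snd.comp Primrec.snd)
  have a3 : Primrec fun p : (List Bool × List Bool) × (List Bool × ℕ) => p.1.2 :=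
    Primrec.snd.comp Primrec.fst
  have a4 : Primrec fun p : (List Bool × List Bool) × (List Bool × ℕ) => p.1.1 :=
    Primrec.fst.comp Primrec.fst
  refine Primrec.list_append.comp (Primrec.list_append.comp (Primrec.list_append.comp
    (Primrec.const _) (Primrec.list_append.comp (Primrec.list_append.comp
      (Primrec.list_append.comp (Primrec.const _) a1) (Primrec.const _)) ?_))
      (Primrec.const _)) a4
  exact Primrec.list_append.comp (Primrec.list_append.comp (Primrec.list_append.comp
      (Primrec.const _) a2) (Primrec.const _)) a3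

attribute [irreducible] rs

theorem rs_comp {β : Type} [Primcodable β] {f g h : β → List Bool} {k : β → ℕ}
    (hf : Primrec f) (hg : Primrec g) (hh : Primrec h) (hk : Primrec k) :
    Primrec fun x => rs (f x) (g x) (h x) (k x) :=
  rs_primrec.comp (Primrec.pair (Primrec.pair hf hg) (Primrec.pair hh hk))

theorem app_comp {β : Type} [Primcodable β] {f g : β → List Bool}
    (hf : Primrec f) (hg : Primrec g) : Primrec fun x => f x ++ g x :=
  Primrec.list_append.comp hf hg

/-! ### lists of formulas -/

open Classical in
/-- the formula with the Gödel number `a`, if there is one -/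
noncomputable def ofG (a : ℕ) : List Fml := if h : ∃ φ, a = gn φ then [h.choose] else []

theorem ofG_gn (φ : Fml) : ofG (gn φ) = [φ] := by
  have h : ∃ ψ, gn φ = gn ψ := ⟨φ, rfl⟩
  unfold ofG
  rw [dif_pos h, gn_inj _ _ h.choose_spec.symm]

theorem flat_ofG (f : Fml → List Bool) (g : List Bool → List Bool)
    (hfg : ∀ φ, f φ = g (str φ)) (a : ℕ) :
    (ofG a).flatMap f = cond (isF a) (g (st a)) [] := by
  by_cases h : ∃ φ, a = gn φ
  · obtain ⟨φ, rfl⟩ := h
    rw [ofG_gn, (isF_iff _).2 ⟨φ, rfl⟩, st_gn]
    simp [hfg]
  · have h1 : isF a = false := by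
      rw [← Bool.not_eq_true]
      exact fun h2 => h ((isF_iff a).1 h2)
    unfold ofG
    rw [dif_neg h, h1]
    rfl

/-- the list of all formulas with Gödel numbers at most `n` -/
noncomputable def fl (n : ℕ) : List Fml := (List.range (n + 1)).flatMap ofG

theorem mem_fl {n : ℕ} {φ : Fml} (h : gn φ ≤ n) : φ ∈ fl n := by
  unfold fl
  rw [List.mem_flatMap]
  exact ⟨gn φ, List.mem_range.2 (by omega), by rw [ofG_gn]; simp⟩

theorem flat_fl (f : Fml → List Bool) (g : List Bool → List Bool)
    (hfg : ∀ φ, f φ = g (str φ)) (n : ℕ) :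
    (fl n).flatMap f = (List.range (n + 1)).flatMap fun a => cond (isF a) (g (st a)) [] := by
  unfold fl
  rw [List.flatMap_assoc]
  congr 1
  funext a
  exact flat_ofG f g hfg a

end Pool.Agent.T9h6.BD
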