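import Pool.Agent.T9h6.BD.Cst
import Pool.Agent.T9h6.BD.Lst
import Pool.Agent.T9h6.BC.Cons

/-!
# Consistency of the theory with the reflection axioms
-/

set_option autoImplicit false

namespace Pool.Agent.T9h6.BD

open Pool.Agent.TH672 (Fm Str)
open Pool.Agent.TH636.BC
open Pool.Agent.TH554.J1548 (str_le_strs)
open Pool.Agent.TH197.J1545 (code_inj)
open Pool.Agent.T9h6.BC (Num ok_zero isProof_sub Vlt.mono vlt_sz sz AxS2)

theorem refl_length (W : Fml) (Γ : List Fml) (k : ℕ) (φ : Fml) :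
    k < (str (refl W Γ k φ)).length := by
  rw [refl_eq, str_rfS]
  have := le_length_rs (str φ) (str W) (strs (φ :: W :: Γ)) k
  omega

/-- The theory `T` is consistent for `Γ = Ax P`. -/
theorem consR (hSd : SoundS) (hA : AxS2) {S : Fml → Prop} (hS : ∀ ψ, S ψ → RelTrue ψ)
    {V P : Fml} (hV : Num (PRel S) V) (hP : Num (TRel S V) P) :
    ∀ y, ¬ ProvesT S V (Ax P) y Fm.bot := by
  intro y
  induction y using Nat.strong_induction_on with
  | _ y ih =>
    rintro ⟨Δ, hΔ, π, h1, h2⟩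
    have hax := hA P hP.arith hP.free y (fun y' hy' => by
      refine hP.neg _ _ _ ?_
      rintro ⟨Γ, φ, e1, e2, h3⟩
      have e3 : φ = Fm.bot := by simpa using (code_inj e2).symm
      rw [← code_inj e1, e3] at h3
      exact ih y' hy' h3)
    have hvl : ∀ φ ∈ Fm.bot :: π, Vlt y φ := fun φ hφ => by
      have h3 : sz φ ≤ y := (str_le_strs hφ).trans h2
      exact Vlt.mono h3 (vlt_sz φ)
    classical
    let Δ' : List Fml := Δ.filter fun ψ => decide (ψ ∈ Fm.bot :: π)
    have hsub : IsProof Δ' (Fm.bot :: π) := isProof_sub (fun ψ hψ hψ' => by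
      simp only [Δ', List.mem_filter, decide_eq_true_eq]
      exact ⟨hψ', hψ⟩) h1
    have h6 := hSd y Δ' (Fm.bot :: π) hsub hvl (fun ψ hψ hψv => by
      simp only [Δ', List.mem_filter, decide_eq_true_eq] at hψ
      have hl : (str ψ).length ≤ y := (str_le_strs hψ.2).trans h2
      obtain ⟨k, hk⟩ := hΔ ψ hψ.1
      rcases hk with hk | hk | ⟨j, -, φ, rfl⟩
      · exact tr1_axK hSd hS hV hax 0 (Nat.zero_le _) ψ (Or.inl hk) hψv
      · exact tr1_axK hSd hS hV hax 0 (Nat.zero_le _) ψ (Or.inr (Or.inl hk)) hψv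
      · have hj := refl_length V (Ax P) j φ
        exact tr1_axK hSd hS hV hax j (by omega) _
          (Or.inr (Or.inr ⟨j, Nat.lt_succ_self j, φ, rfl⟩)) hψv) Fm.bot (List.mem_cons_self ..)
    exact h6 _ (ok_zero y)

end Pool.Agent.T9h6.BD
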