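import Pool.Agent.T9h6.BD.Defs
import Pool.Agent.T9h6.BC.Rel2

/-!
# Proofs with few variables from finite lists of axioms: decidability
-/

set_option autoImplicit false

namespace Pool.Agent.T9h6.BD

open Pool.Agent.TH672 (Fm varStr num digits LogK)
open Pool.Agent.TH636.BC
open Pool.Agent.TH955.J1547 (p_var isF isF_primrec isF_iff gnLog)
open Pool.Agent.TH554.J1548 (lsts mem_lsts lsts_primrec Chk chk_primrec isPf_iff sL sL_map sL_primrec
  exists_map length_le_strs length_le_num str_le_strs num_primrec prComp)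
open Pool.Agent.TH197.J1545 (code_inj num_inj str_pre digits_num str_ne_nil strs_cons)
open Pool.Agent.T9h6.BC (st st_primrec st_gn Bd Bd_primrec Bd_mono gn_le vl vl_primrec vl_gn)

/-- `x = (c, k, y, d)`: the formula with the code `d` has a proof of length at most `y` with the
variables below `k` from the list with the code `c`. -/
def PrV (x : ℕ × ℕ × ℕ × ℕ) : Prop :=
  ∃ (Γ : List Fml) (φ : Fml) (π : List Fml), x.1 = code Γ ∧ x.2.2.2 = code [φ] ∧
    IsProof Γ (φ :: π) ∧ (∀ ψ ∈ φ :: π, Vlt x.2.1 ψ) ∧ (strs (φ :: π)).length ≤ x.2.2.1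

theorem prV_primrec : PrimrecPred PrV := by
  classical
  obtain ⟨L, hL, hL'⟩ := gnLog
  have key : ∀ x : ℕ × ℕ × ℕ × ℕ, (∃ G ∈ lsts (Bd x.1) x.1, ∃ π ∈ lsts (Bd x.2.2.1) x.2.2.1,
      (Chk isF st L π G (x.1, x.2.2.1, x.2.2.2) ∧ ∀ a ∈ π, vl x.2.1 a = true)) ↔
      PrV x := by
    rintro ⟨c, k, m, d⟩
    simp only [PrV]
    constructor
    · rintro ⟨G, -, π, -, ⟨hG, hπ, hc, hm, hpf, f, hf, hd⟩, hv⟩
      obtain ⟨Γ, rfl⟩ := exists_map isF_iff G hG
      obtain ⟨Q, rfl⟩ := exists_map isF_iff π hπ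
      rw [isPf_iff hL'] at hpf
      rw [sL_map st_gn] at hc hm
      cases Q with
      | nil => simp at hf
      | cons φ Q =>
        simp only [List.map_cons, List.head?_cons, Option.toList_some, List.mem_singleton] at hf
        subst hf
        rw [st_gn] at hd
        have hφ : d = code [φ] := by
          refine hd.symm.trans ?_
          simp [code, strs]
        refine ⟨Γ, φ, Q, hc.symm, hφ, hpf, fun ψ hψ => ?_, hm⟩
        exact (vl_gn k ψ).1 (hv _ (List.mem_map_of_mem hψ))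
    · rintro ⟨Γ, φ, Q, rfl, rfl, hpf, hv, hm⟩
      have hlen : (strs Γ).length ≤ code Γ := length_le_num _
      refine ⟨Γ.map gn, ?_, (φ :: Q).map gn, ?_, ⟨?_, ?_, ?_, ?_, ?_, ?_⟩, ?_⟩
      · rw [mem_lsts]
        refine ⟨?_, ?_⟩
        · rw [List.length_map]
          exact (length_le_strs Γ).trans hlen
        · intro a ha
          obtain ⟨ψ, hψ, rfl⟩ := List.mem_map.1 ha
          exact (gn_le ψ).trans (Bd_mono ((str_le_strs hψ).trans hlen))
      · rw [mem_lsts]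
        refine ⟨?_, ?_⟩
        · rw [List.length_map]
          exact (length_le_strs _).trans hm
        · intro a ha
          obtain ⟨ψ, hψ, rfl⟩ := List.mem_map.1 ha
          exact (gn_le ψ).trans (Bd_mono ((str_le_strs hψ).trans hm))
      · intro a ha
        obtain ⟨ψ, hψ, rfl⟩ := List.mem_map.1 ha
        exact (isF_iff _).2 ⟨ψ, rfl⟩
      · intro a ha
        obtain ⟨ψ, hψ, rfl⟩ := List.mem_map.1 ha
        exact (isF_iff _).2 ⟨ψ, rfl⟩
      · rw [sL_map st_gn]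
        rfl
      · rw [sL_map st_gn]
        exact hm
      · rw [isPf_iff hL']
        exact hpf
      · refine ⟨gn φ, by simp, ?_⟩
        rw [st_gn]
        simp [code, strs]
      · intro a ha
        obtain ⟨ψ, hψ, rfl⟩ := List.mem_map.1 ha
        exact (vl_gn k ψ).2 (hv ψ hψ)
  have hC := chk_primrec isF_primrec st_primrec hL
  have q4 : Primrec fun p : List ℕ × (List ℕ × (ℕ × ℕ × ℕ × ℕ)) => p.2.2 :=
    Primrec.snd.comp Primrec.snd
  have h1 : Primrec fun p : List ℕ × (List ℕ × (ℕ × ℕ × ℕ × ℕ)) =>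
      (p.1, p.2.1, ((p.2.2.1, p.2.2.2.2.1, p.2.2.2.2.2) : ℕ × ℕ × ℕ)) :=
    Primrec.pair Primrec.fst (Primrec.pair (Primrec.fst.comp Primrec.snd)
      (Primrec.pair (Primrec.fst.comp q4)
        (Primrec.pair (Primrec.fst.comp (Primrec.snd.comp (Primrec.snd.comp q4)))
          (Primrec.snd.comp (Primrec.snd.comp (Primrec.snd.comp q4))))))
  have hC' : PrimrecPred fun p : List ℕ × (List ℕ × (ℕ × ℕ × ℕ × ℕ)) =>
      Chk isF st L p.1 p.2.1 (p.2.2.1, p.2.2.2.2.1, p.2.2.2.2.2) := hC.comp h1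
  have hv1 : PrimrecRel fun (a : ℕ) (k : ℕ) => vl k a = true :=
    Primrec.eq.comp (vl_primrec.comp Primrec.snd Primrec.fst) (Primrec.const true)
  have hv2 : PrimrecRel fun (π : List ℕ) (k : ℕ) => ∀ a ∈ π, vl k a = true :=
    PrimrecRel.forall_mem_list hv1
  have hv3 : PrimrecPred fun p : List ℕ × (List ℕ × (ℕ × ℕ × ℕ × ℕ)) =>
      ∀ a ∈ p.1, vl p.2.2.2.1 a = true :=
    hv2.comp Primrec.fst (Primrec.fst.comp (Primrec.snd.comp q4))
  have h4 : PrimrecRel fun (π : List ℕ) (q : List ℕ × (ℕ × ℕ × ℕ × ℕ)) =>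
      (Chk isF st L π q.1 (q.2.1, q.2.2.2.1, q.2.2.2.2) ∧ ∀ a ∈ π, vl q.2.2.1 a = true) :=
    hC'.and hv3
  have h3 : PrimrecRel fun (G : List ℕ) (x : ℕ × ℕ × ℕ × ℕ) =>
      ∃ π ∈ lsts (Bd x.2.2.1) x.2.2.1,
      (Chk isF st L π G (x.1, x.2.2.1, x.2.2.2) ∧ ∀ a ∈ π, vl x.2.1 a = true) := by
    refine (PrimrecRel.exists_mem_list h4).comp (f := fun q : List ℕ × (ℕ × ℕ × ℕ × ℕ) =>
      lsts (Bd q.2.2.2.1) q.2.2.2.1) (g := fun q => q) ?_ Primrec.id
    have h5 : Primrec fun q : List ℕ × (ℕ × ℕ × ℕ × ℕ) => q.2.2.2.1 :=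
      Primrec.fst.comp (Primrec.snd.comp (Primrec.snd.comp Primrec.snd))
    exact lsts_primrec.comp (Bd_primrec.comp h5) h5
  have h6 : PrimrecPred fun x : ℕ × ℕ × ℕ × ℕ => ∃ G ∈ lsts (Bd x.1) x.1,
      ∃ π ∈ lsts (Bd x.2.2.1) x.2.2.1,
      (Chk isF st L π G (x.1, x.2.2.1, x.2.2.2) ∧ ∀ a ∈ π, vl x.2.1 a = true) :=
    (PrimrecRel.exists_mem_list h3).comp (lsts_primrec.comp (Bd_primrec.comp Primrec.fst)
      Primrec.fst) Primrec.id
  exact h6.of_eq key

end Pool.Agent.T9h6.BD
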