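import Pool.Agent.T9h6.BD.Defs
import Pool.Agent.T9h6.BC.Cons
import Pool.Agent.T9h21.BC.AxT

/-!
# The new axioms in the real structure and in the pseudo-models
-/

set_option autoImplicit false

namespace Pool.Agent.T9h6.BD

open Pool.Agent.TH672 (Fm Str upd varStr num digits LogK ReplK Sw Pv upd_same upd_ne upd_upd
  upd_comm)
open Pool.Agent.TH636.BC
open Pool.Agent.TH838.J1549 (sat_cong sat_inst sat_inst3 free_inst Q exists_Q)
open Pool.Agent.TH197.J1545 (DM D Dsucc Dadd Dmul sat_proves sat_robinson code_inj sat_upd)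
open Pool.Agent.T9h21.BC (NoCol noCol_of_arith tru_iff_sat tr1_of_sat)
open Pool.Agent.T9h6.BC (Num exists_QD arith_inst ok_zero)

/-! ### relativised sentences -/

/-- the real structure and the standard structure -/
theorem sat_rel : ∀ {φ : Fml}, Arith φ → ∀ (v : ℕ → ℕ),
    (Fm.Sat D (rel φ) (fun x => Sum.inl (v x)) ↔ Fm.Sat natStr φ v) := by
  intro φ
  induction φ with
  | bot => intro _ v; rfl
  | eq x y =>
    intro _ v
    simp only [rel, Fm.sat_eq]
    exact Sum.inl_injective.eq_iff
  | zero x =>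
    intro _ v
    show (Sum.inl (v x) : DM) = Sum.inl 0 ↔ v x = 0
    exact Sum.inl_injective.eq_iff
  | succ x y =>
    intro _ v
    show (Sum.inl (v y) : DM) = Sum.inl (v x + 1) ↔ v y = v x + 1
    exact Sum.inl_injective.eq_iff
  | add x y z =>
    intro _ v
    show (Sum.inl (v z) : DM) = Sum.inl (v x + v y) ↔ v z = v x + v y
    exact Sum.inl_injective.eq_iff
  | mul x y z =>
    intro _ v
    show (Sum.inl (v z) : DM) = Sum.inl (v x * v y) ↔ v z = v x * v y
    exact Sum.inl_injective.eq_iff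
  | op i a b c d => intro h; exact absurd h id
  | imp φ ψ ih ih' =>
    intro h v
    simp only [rel, Fm.sat_imp]
    rw [ih h.1, ih' h.2]
  | all x φ ih =>
    intro h v
    simp only [rel, Fm.sat_all, Fm.sat_imp, Fm.sat_neg, Fm.sat_succ, upd_same]
    have e : ∀ n : ℕ, upd (fun x => (Sum.inl (v x) : DM)) x (Sum.inl n) =
        fun y => Sum.inl (upd v x n y) := by
      intro n
      funext y
      by_cases hy : y = x
      · subst hy; simp
      · rw [upd_ne _ _ hy, upd_ne _ _ hy]
    constructor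
    · intro H n
      have h1 := H (Sum.inl n) (fun h2 => by
        have h3 : (Sum.inl n : DM) = Sum.inl (n + 1) := h2
        have := Sum.inl_injective h3
        omega)
      rw [e n] at h1
      exact (ih h _).1 h1
    · intro H a ha
      rcases a with n | p
      · rw [e n]
        exact (ih h _).2 (H n)
      · exact absurd rfl ha

theorem noCol_rel : ∀ {φ : Fml}, Arith φ → NoCol (rel φ) := by
  intro φ
  induction φ with
  | op i a b c d => intro h; exact absurd h id
  | imp φ ψ ih ih' => intro h; exact ⟨ih h.1, ih' h.2⟩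
  | all x φ ih => intro h; exact ⟨⟨trivial, trivial⟩, ih h⟩
  | _ => intro _; trivial

theorem free_rel {x : ℕ} : ∀ {φ : Fml}, (rel φ).Free x → φ.Free x := by
  intro φ
  induction φ with
  | imp φ ψ ih ih' =>
    intro h
    rcases h with h | h
    · exact Or.inl (ih h)
    · exact Or.inr (ih' h)
  | all u φ ih =>
    rintro ⟨h1, h2⟩
    rcases h2 with h2 | h2
    · rcases h2 with (h3 | h3) | h3
      · exact absurd h3 h1
      · exact absurd h3 h1
      · exact absurd h3 id
    · exact ⟨h1, ih h2⟩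
  | bot => exact id
  | eq => exact id
  | zero => exact id
  | succ => exact id
  | add => exact id
  | mul => exact id
  | op => exact id

/-- The relativised true sentences are true in the pseudo-models. -/
theorem tr1_relTrue {ψ : Fml} (h : RelTrue ψ) {m : ℕ} (hV : Vlt m ψ) : Tr1 m ψ := by
  obtain ⟨φ, h1, h2, h3, rfl⟩ := h
  refine tr1_of_sat (noCol_rel h1) hV fun v => ?_
  have h4 := (sat_rel h1 (fun _ => 0)).2 (h3 _)
  exact (sat_cong fun x hx => absurd (free_rel hx) (h2 x)).1 h4

theorem closed_rel {ψ : Fml} (h : RelTrue ψ) : ψ.Closed := by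
  obtain ⟨φ, h1, h2, h3, rfl⟩ := h
  exact fun x hx => h2 x (free_rel hx)

/-! ### dyadic numerals -/

theorem free_blk {x : ℕ} {ψ : Fml} (h : (blk ψ).Free x) : x ≠ 1 ∧ (x = 0 ∨ ψ.Free x) := by
  simp only [blk, Fm.Free] at h
  obtain ⟨h1, h2 | h2⟩ := h
  · exact ⟨h1, h2.imp id fun h => absurd h h1⟩
  · obtain ⟨h3, h4 | h4⟩ := h2
    · exact ⟨h1, h4.imp id fun h => absurd h h1⟩
    · exact ⟨h1, Or.inr h4⟩

theorem free_dblk {x : ℕ} {b : Bool} {ψ : Fml} (h : (dblk b ψ).Free x) :
    x ≠ 1 ∧ (x = 0 ∨ ψ.Free x) := by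
  simp only [dblk, Fm.Free] at h
  obtain ⟨h1, h2 | h2⟩ := h
  · refine ⟨h1, ?_⟩
    rcases h2 with h2 | h2 | h2
    · exact Or.inl h2
    · exact Or.inl h2
    · exact absurd h2 h1
  · obtain ⟨h3, h4 | h4⟩ := h2
    · rcases h4 with h4 | h4
      · exact absurd h4 h1
      · exact absurd h4 h3
    · refine ⟨h1, Or.inr ?_⟩
      cases b with
      | false => simpa using h4
      | true =>
        have h5 := free_blk (by simpa using h4)
        exact h5.2.resolve_left h3

theorem free_foldr {x : ℕ} {ψ : Fml} : ∀ {σ : List Bool}, (σ.foldr dblk ψ).Free x →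
    ψ.Free x ∨ (x = 0)
  | [], h => Or.inl h
  | b :: σ, h => by
    have h1 := free_dblk h
    rcases h1.2 with h2 | h2
    · exact Or.inr h2
    · exact free_foldr h2

theorem free_instD {x y : ℕ} {σ : List Bool} {φ : Fml} (h : (instD x σ φ).Free y) :
    y ≠ 0 ∧ y ≠ x ∧ φ.Free y := by
  simp only [instD, Fm.Free] at h
  obtain ⟨h1, h2 | h2⟩ := h
  · exact absurd h2 h1
  · rcases free_foldr h2 with h3 | h3
    · simp only [Fm.Free] at h3
      obtain ⟨h4, h5 | h5⟩ := h3
      · rcases h5 with h5 | h5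
        · exact absurd h5 h4
        · exact absurd h5 h1
      · exact ⟨h1, h4, h5⟩
    · exact absurd h3 h1

theorem sat_foldr {Ψ : Fml} (hΨ : ¬ Ψ.Free 1) : ∀ (σ : List Bool) (a : ℕ) (v : ℕ → DM),
    v 0 = .inl a → (Fm.Sat D (σ.foldr dblk Ψ) v ↔
      Fm.Sat D Ψ (upd v 0 (.inl (σ.foldl (fun n b => 2 * n + if b then 2 else 1) a))))
  | [], a, v, h => by
    simp only [List.foldr_nil, List.foldl_nil]
    rw [← h]
    exact sat_cong fun y _ => by
      by_cases hy : y = 0
      · subst hy; simp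
      · rw [upd_ne _ _ hy]
  | b :: σ, a, v, h => by
    simp only [List.foldr_cons, List.foldl_cons]
    have e1 : ∀ c : DM, Fm.Sat D (.add 0 0 1) (upd v 1 c) ↔ c = .inl (a + a) := by
      intro c
      show (upd v 1 c) 1 = Dadd ((upd v 1 c) 0) ((upd v 1 c) 0) ↔ _
      rw [upd_same, upd_ne _ _ (by omega : (0 : ℕ) ≠ 1), h]
      rfl
    have e2 : ∀ d : DM, Fm.Sat D (.succ 1 0) (upd (upd v 1 (.inl (a + a))) 0 d) ↔
        d = .inl (a + a + 1) := by
      intro d
      show (upd (upd v 1 (.inl (a + a))) 0 d) 0 = Dsucc ((upd (upd v 1 (.inl (a + a))) 0 d) 1) ↔ _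
      rw [upd_same, upd_ne _ _ (by omega : (1 : ℕ) ≠ 0), upd_same]
      rfl
    simp only [dblk, Fm.sat_all, Fm.sat_imp]
    have e3 : (∀ c : DM, Fm.Sat D (.add 0 0 1) (upd v 1 c) → ∀ d : DM,
        Fm.Sat D (.succ 1 0) (upd (upd v 1 c) 0 d) →
        Fm.Sat D (if b then blk (σ.foldr dblk Ψ) else σ.foldr dblk Ψ) (upd (upd v 1 c) 0 d)) ↔
        Fm.Sat D (if b then blk (σ.foldr dblk Ψ) else σ.foldr dblk Ψ)
          (upd (upd v 1 (.inl (a + a))) 0 (.inl (a + a + 1))) := by
      constructor
      · intro H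
        exact H _ ((e1 _).2 rfl) _ ((e2 _).2 rfl)
      · intro H c hc d hd
        rw [e1] at hc
        subst hc
        rw [e2] at hd
        subst hd
        exact H
    rw [e3]
    cases b with
    | false =>
      simp only [Bool.false_eq_true, if_false]
      rw [sat_foldr hΨ σ (a + a + 1) _ (by rw [upd_same]), upd_upd,
        show a + a + 1 = 2 * a + 1 by ring]
      exact sat_cong fun y hy => by
        by_cases hy0 : y = 0
        · subst hy0; simp
        · rw [upd_ne _ _ hy0, upd_ne _ _ hy0, upd_ne]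
          rintro rfl
          exact hΨ hy
    | true =>
      simp only [if_true]
      set w := upd (upd v 1 (.inl (a + a) : DM)) 0 (.inl (a + a + 1)) with hw
      have hw0 : w 0 = .inl (a + a + 1) := by rw [hw, upd_same]
      have e4 : Fm.Sat D (blk (σ.foldr dblk Ψ)) w ↔
          Fm.Sat D (σ.foldr dblk Ψ) (upd (upd w 1 (.inl (a + a + 2))) 0 (.inl (a + a + 2))) := by
        simp only [blk, Fm.sat_all, Fm.sat_imp]
        constructor
        · intro H
          refine H (.inl (a + a + 2)) ?_ (.inl (a + a + 2)) ?_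
          · show (upd w 1 _) 1 = Dsucc ((upd w 1 _) 0)
            rw [upd_same, upd_ne _ _ (by omega : (0 : ℕ) ≠ 1), hw0]
            rfl
          · show (upd (upd w 1 _) 0 _) 0 = (upd (upd w 1 _) 0 _) 1
            rw [upd_same, upd_ne _ _ (by omega : (1 : ℕ) ≠ 0), upd_same]
        · intro H c hc d hd
          have hc' : (upd w 1 c) 1 = Dsucc ((upd w 1 c) 0) := hc
          rw [upd_same, upd_ne _ _ (by omega : (0 : ℕ) ≠ 1), hw0] at hc'
          have hc2 : c = .inl (a + a + 2) := hc'
          subst hc2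
          have hd' : (upd (upd w 1 (.inl (a + a + 2) : DM)) 0 d) 0 =
            (upd (upd w 1 (.inl (a + a + 2) : DM)) 0 d) 1 := hd
          rw [upd_same, upd_ne _ _ (by omega : (1 : ℕ) ≠ 0), upd_same] at hd'
          subst hd'
          exact H
      rw [e4, sat_foldr hΨ σ (a + a + 2) _ (by rw [upd_same]), upd_upd,
        show a + a + 2 = 2 * a + 2 by ring]
      exact sat_cong fun y hy => by
        by_cases hy0 : y = 0
        · subst hy0; simp
        · have hy1 : y ≠ 1 := by
            rintro rfl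
            exact hΨ hy
          rw [upd_ne _ _ hy0, upd_ne _ _ hy0, upd_ne _ _ hy1, hw, upd_ne _ _ hy0,
            upd_ne _ _ hy1]

theorem sat_instD {φ : Fml} {x : ℕ} (hx : 2 ≤ x) (h0 : ¬ φ.Free 0) (h1 : ¬ φ.Free 1)
    (σ : List Bool) (v : ℕ → DM) :
    Fm.Sat D (instD x σ φ) v ↔ Fm.Sat D φ (upd v x (.inl (num σ))) := by
  have hΨ : ¬ (Fm.all x (.imp (.eq x 0) φ)).Free 1 := by
    simp only [Fm.Free, not_and]
    intro hx1 h
    rcases h with (h | h) | h
    · omega
    · omega
    · exact h1 h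
  have e1 : Fm.Sat D (instD x σ φ) v ↔
      Fm.Sat D (σ.foldr dblk (.all x (.imp (.eq x 0) φ))) (upd v 0 (.inl 0)) := by
    simp only [instD, Fm.sat_all, Fm.sat_imp]
    constructor
    · intro H
      exact H _ (by show (upd v 0 _) 0 = _; rw [upd_same])
    · intro H c hc
      have hc' : (upd v 0 c) 0 = .inl 0 := hc
      rw [upd_same] at hc'
      subst hc'
      exact H
  rw [e1, sat_foldr hΨ σ 0 _ (by rw [upd_same]), upd_upd]
  have e2 : σ.foldl (fun n b => 2 * n + if b then 2 else 1) 0 = num σ := rfl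
  rw [e2]
  simp only [Fm.sat_all, Fm.sat_imp, Fm.sat_eq, upd_same,
    upd_ne _ _ (show (0 : ℕ) ≠ x by omega), forall_eq]
  exact sat_cong fun y hy => by
    by_cases hyx : y = x
    · subst hyx; simp
    · rw [upd_ne _ _ hyx, upd_ne _ _ hyx, upd_ne]
      rintro rfl
      exact h0 hy

theorem arith_foldr {Ψ : Fml} (h : Arith Ψ) : ∀ σ : List Bool, Arith (σ.foldr dblk Ψ)
  | [] => h
  | b :: σ => by
    have ih := arith_foldr h σ
    cases b with
    | false => exact ⟨trivial, trivial, ih⟩
    | true => exact ⟨trivial, trivial, trivial, trivial, ih⟩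

theorem arith_instD {φ : Fml} {x : ℕ} {σ : List Bool} (h : Arith φ) : Arith (instD x σ φ) :=
  ⟨trivial, arith_foldr (Ψ := .all x (.imp (.eq x 0) φ)) ⟨trivial, h⟩ σ⟩

end Pool.Agent.T9h6.BD
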